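import Pool.Agent.CY.S8.Final

/-!
# MP_d52053_gt: the sharp constant in `Y_1(X, ∂X) ≥ d_n Y(∂X)`
-/

namespace Pool.Agent.Results.MP_d52053_gt.SharpConstant

open Pool.Agent.CY

/-- For every `n ≥ 3` the quotients `Y_1(X, ∂X, [g]) / Y(∂X, [g_o])` of the conformally compact Einstein
manifolds `X^{n+1}` with `Y(∂X, [g_o]) > 0` have a smallest element, and it is
`n(n+1) (ω_{n+1}/2)^{2/(n+1)} / (n(n-1) ω_n^{2/n})`. -/
theorem result : ∀ n : ℕ, 3 ≤ n → IsLeast (Ratios n) (An n / Yn n) := isLeast_ratios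

end Pool.Agent.Results.MP_d52053_gt.SharpConstant
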