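import Pool.Agent.CY.S8.Final

/-!
# MP_d52053_gt: the sharper inequality and its equality case
-/

namespace Pool.Agent.Results.MP_d52053_gt.StrongInequality

open Pool.Agent.CY
open scoped Manifold ContDiff

/-- `Y_1 ≥ A_n (Y(∂X) / Y(S^n))^{n/(n+1)}`, and a conformally compact Einstein manifold with the optimal
quotient has `Y(∂X) = Y(S^n)` and `Y_1 = A_n`, the values of hyperbolic space. -/
theorem result (n : ℕ) (hn : 3 ≤ n) (X : Type) [TopologicalSpace X]
    [ChartedSpace (EuclideanHalfSpace (n + 1)) X] [IsManifold (𝓡∂ (n + 1)) ∞ X] [CompactSpace X]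
    [T2Space X] [ConnectedSpace X] [MeasurableSpace X] [BorelSpace X] (g : Metric n X) (ρ : X → ℝ)
    (hE : IsCCE g ρ) (hY : 0 < YB g) :
    An n * (YB g / Yn n) ^ ((n : ℝ) / ((n : ℝ) + 1)) ≤ Y1 g ∧
      (Y1 g / YB g = An n / Yn n → YB g = Yn n ∧ Y1 g = An n) :=
  ((sharp_constant n hn).2 X g ρ hE hY).2

end Pool.Agent.Results.MP_d52053_gt.StrongInequality
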